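import Pool.Agent.Helper10.QRH.Final
import Pool.Agent.Helper69.QRH.A2
import Pool.Agent.Helper79.QRH.KFacts
import Pool.Agent.Helper52.QRH.Explicit
import Pool.Agent.Helper52.QRH.Duality
import Pool.Agent.Helper64.QRH.Vdc
import Pool.Agent.Helper96.QRH.PsiApprox
import Pool.Agent.Helper96.QRH.PsiSum
import Pool.Agent.Helper96.QRH.Lattice
import Pool.Agent.Helper79.QRH.PairS
import Pool.Agent.Helper79.QRH.RoughFL
import Pool.Agent.Helper51.QRH.Cells
import Pool.Agent.Helper65.QRH.CdFacts
import Pool.Agent.Helper65.QRH.Others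
import Pool.Agent.Helper55.QRH.C0c
import Pool.Agent.Helper55.QRH.C6
import Pool.Agent.Helper55.QRH.C7
import Pool.Agent.Helper55.QRH.C10
import Pool.Agent.Helper26.QRH.WFacts
import Pool.Agent.Helper26.QRH.Class4
import Pool.Agent.Helper46.QRH.C1
import Pool.Agent.Helper18.QRH.C2
import Pool.Agent.Helper28.QRH.C4
import Pool.Agent.Helper28.QRH.C8e
import Pool.Agent.Helper58.QRH.OrdCount
import Pool.Agent.Helper70.QRH.Cls1
import Pool.Agent.Helper70.QRH.Cls2
import Pool.Agent.Helper70.QRH.Cls3
import Pool.Agent.Helper15.QRH.System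
import Pool.Agent.Helper15.QRH.PartC
import Pool.Agent.Helper2.QRH.CL
import Pool.Agent.Helper2.QRH.C3
import Pool.Agent.Helper2.QRH.C3c
import Pool.Agent.Helper30.QRH.BadCells
import Pool.Agent.Helper4.QRH.HTwoC
import Pool.Agent.Helper4.QRH.Squares

/-! Assembly of the modules of project QRH (MP_768c9c_nt). -/

set_option autoImplicit false

namespace Pool.Agent.Helper10.QRH

theorem partC_all (P : Par) : PartC P := by
  have h0 : PhiFacts P := Helper55.QRH.phiFacts P
  have hc : CellFacts P := Helper51.QRH.cellFacts P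
  have hd : CdFacts P := Helper65.QRH.cdFacts P
  have hw : WFacts P := Helper26.QRH.wFacts P h0
  have h1 : SizeFacts P := Helper46.QRH.sizeFacts P h0
  have h2 : CandSum P := Helper18.QRH.candSum P h0 hd
  have h3 : BadSum P := Helper18.QRH.badSum P h0 hc
  have h4 : CL P := Helper2.QRH.cl P h0 (Helper2.QRH.cla P h0 hd) (Helper2.QRH.clb P h0 hc hd)
    (Helper2.QRH.clc P h0 hc hd)
  have hcc : CleanCount P := Helper28.QRH.cleanCount P h0 h1 hc hd h2 h3 h4
  have hs : ExistsSel P := Helper28.QRH.existsSel P hc hd h1 hcc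
  have hog : OrdGood P := Helper58.QRH.ordGood P h0 h1 hc hd h4
  have hoi : OrdInit P := Helper58.QRH.ordInit P h0 h2
  have hz : WtSize P := Helper55.QRH.wtSize P h0 hw hd h1
  have hsel : WWSel P := Helper55.QRH.wwSel P h0 hw hd
  have hsw : SumWW P := Helper55.QRH.sumWW P h0 hw hz h2
  have hr : Rankin P := Helper55.QRH.rankin P h0 hw hz h2
  have c1 : Class1 P := Helper70.QRH.class1 P h0 hc h1 hw hsw
  have c2 : Class2 P := Helper70.QRH.class2 P h0 hc h1 hw hr
  have c3 : Class3 P := Helper70.QRH.class3 P h0 hc h1 hw hz hr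
  have c4 : Class4 P := Helper26.QRH.class4 P h0 hc hd h1 hw hz h4
  have c5 : Class5 P := Helper28.QRH.class5 P h0 hc hd h1 hw hsel hsw
  have hoc : OthersCell P := Helper65.QRH.othersCell P hw c1 c2 c3 c4 c5
  have hot : OthersInit P := Helper65.QRH.othersInit P h0 hw hz hsw hr
  have hsg : SgSum P := Helper55.QRH.sgSum P
  have hm : Majorant P := Helper55.QRH.majorant P h0 hw
  have ho : FtOwn P := Helper55.QRH.ftOwn P h0 hw hd
  have hf : FixedPoint := Helper55.QRH.fixedPoint
  have hsys : System P := Helper15.QRH.system P h0 h1 hc hd hw hoc hot hog hoi hsg hm ho hf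
  exact Helper15.QRH.partC P h0 h1 hc hd hw hoc hsel hm hs hsys

theorem badCells_all : BadCells :=
  Helper30.QRH.badCells (Helper69.QRH.existsG Helper69.QRH.zetaGrowth Helper69.QRH.factorFinite)
    Helper79.QRH.kFacts (Helper52.QRH.explicit Helper79.QRH.kFacts) Helper52.QRH.duality

theorem hTwo_all : HTwo :=
  Helper4.QRH.hTwo (Helper79.QRH.pairSieve (Helper96.QRH.lattice
    (Helper96.QRH.psiSum Helper64.QRH.vdc Helper96.QRH.psiApprox))) Helper79.QRH.rough
    Helper4.QRH.squares

end Pool.Agent.Helper10.QRH
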