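import Mathlib

/-!
# Project QRH (MP_768c9c_nt): definitions for the construction

Blocks `[2^k, 2^(k+1))`, cells of length `2^(e k)`, bad cells (few primes), candidate pairs `(q, m)`
(control integers `q * m` in bad cells), ordinary primes, clean pairs, selections.
-/

set_option autoImplicit false
open scoped Classical

namespace Pool.Agent.Helper10.QRH

/-- the parameters -/
structure Par where
  κ : ℝ
  η : ℝ
  φ : ℝ
  c : ℝ
  κ0 : 0 < κ
  κ1 : κ ≤ 1/8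
  η0 : 0 < η
  η1 : η ≤ 1/8
  φ0 : 0 < φ
  φ1 : φ ≤ 1/8
  c0 : 0 < c

namespace Par

variable (P : Par)

noncomputable def ν : ℝ := min P.κ (min P.η P.φ) / 200
noncomputable def d : ℝ := P.ν / 100
noncomputable def s : ℝ := P.ν / 200
noncomputable def g : ℝ := min (P.ν / 1000) (P.κ * P.η / 10)

/-- cells of block `k` have length `2^(e k)` -/
noncomputable def e (k : ℕ) : ℕ := ⌊(k : ℝ) * (1/2 - P.d)⌋₊

/-- bad cells are divided into `2^(e' k)` parts of length `2^(e k - e' k)` -/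
noncomputable def e' (k : ℕ) : ℕ := ⌊4 * P.ν * k⌋₊

noncomputable def cell (k j : ℕ) : Finset ℕ :=
  Finset.Ico (2 ^ k + j * 2 ^ P.e k) (2 ^ k + (j + 1) * 2 ^ P.e k)

noncomputable def part (k j i : ℕ) : Finset ℕ :=
  Finset.Ico (2 ^ k + j * 2 ^ P.e k + i * 2 ^ (P.e k - P.e' k))
    (2 ^ k + j * 2 ^ P.e k + (i + 1) * 2 ^ (P.e k - P.e' k))

/-- a bad cell has few primes -/
def bad (k j : ℕ) : Prop :=
  ((((P.cell k j).filter Nat.Prime).card : ℕ) : ℝ) < (2 : ℝ) ^ P.e k / (50 * k)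

/-- the index of the cell of `n` in its block -/
noncomputable def idx (n : ℕ) : ℕ := (n - 2 ^ Nat.log 2 n) / 2 ^ P.e (Nat.log 2 n)

def badN (n : ℕ) : Prop := P.bad (Nat.log 2 n) (P.idx n)

/-- candidate pairs of block `k` -/
def Cd (k : ℕ) : Set (ℕ × ℕ) :=
  {x | x.1.Prime ∧ 0 < x.2 ∧ 2 ^ k ≤ x.1 * x.2 ∧ x.1 * x.2 < 2 ^ (k + 1) ∧
    (2 : ℝ) ^ ((1/2 + P.κ) * k) ≤ x.1 ∧
    (∀ p : ℕ, p.Prime → p ∣ x.2 → (2 : ℝ) ^ (P.η * k) ≤ p) ∧ P.badN (x.1 * x.2)}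

/-- candidate primes -/
def cand (k0 q : ℕ) : Prop := ∃ k, k0 ≤ k ∧ ∃ m, (q, m) ∈ P.Cd k

noncomputable def P1 (k0 : ℕ) : ℕ := 2 ^ ⌊P.η * k0⌋₊

/-- ordinary primes -/
def Ord (k0 p : ℕ) : Prop :=
  p.Prime ∧ P.P1 k0 ≤ p ∧ (p < 2 ^ k0 ∨ ¬ P.badN p) ∧ ¬ P.cand k0 p

/-- clean candidate pairs of block `k` -/
def clean (k0 k : ℕ) : Set (ℕ × ℕ) :=
  {x | x ∈ P.Cd k ∧ (∀ p : ℕ, p.Prime → p ∣ x.2 → P.Ord k0 p) ∧
    ∀ k', k0 ≤ k' → ∀ m, (x.1, m) ∈ P.Cd k' → m = x.2}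

/-- number of controls in each part of a bad cell -/
noncomputable def nsel (k : ℕ) : ℕ := ⌈(2 : ℝ) ^ (P.e k - P.e' k) * (2 : ℝ) ^ (-(P.g * k))⌉₊

/-- a selection of controls -/
structure Sel (k0 : ℕ) where
  S : Set (ℕ × ℕ)
  clean : ∀ x ∈ S, ∃ k, k0 ≤ k ∧ x ∈ P.clean k0 k
  count : ∀ k, k0 ≤ k → ∀ j < 2 ^ (k - P.e k), P.bad k j → ∀ i < 2 ^ P.e' k,
    (((P.part k j i).filter (fun n => ∃ x ∈ S, x.1 * x.2 = n)).card : ℕ) = P.nsel k

/-- hypothesis: few bad cells -/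
def FewBad (k0 : ℕ) : Prop := ∀ k, k0 ≤ k →
  (((Finset.range (2 ^ (k - P.e k))).filter (fun j => P.bad k j)).card : ℝ) ≤ (2 : ℝ) ^ (P.ν * k)

/-- hypothesis: many integers `q m` in every interval -/
def Many (k0 : ℕ) : Prop := ∀ k, k0 ≤ k → ∀ x h : ℕ, 2 ^ k ≤ x → x + h ≤ 2 ^ (k + 1) →
  (2 : ℝ) ^ ((1/2 - 5 * P.ν) * k) ≤ h → (h : ℝ) ≤ (2 : ℝ) ^ ((k : ℝ) / 2) →
  P.c * h / k ≤ (((Finset.Ico x (x + h)).filter (fun n => ∃ q m : ℕ, q.Prime ∧ n = q * m ∧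
      (2 : ℝ) ^ ((1/2 + P.κ) * k) ≤ q ∧
      ∀ p : ℕ, p.Prime → p ∣ m → (2 : ℝ) ^ (P.η * k) ≤ p)).card : ℝ)

/-! ### weights -/

/-- size of `f` at ordinary primes -/
noncomputable def phi (x : ℝ) : ℝ := x ^ (P.s - 1) / (Real.log x) ^ 2

noncomputable def v (k : ℕ) : ℝ := P.phi (2 ^ (k + 1))

noncomputable def Gk (k : ℕ) : ℝ := 1/2000 * 2 ^ P.e k * (2 : ℝ) ^ ((P.s - 1) * k) / k ^ 3

noncomputable def Wk (k : ℕ) : ℝ := P.Gk k / (2 ^ P.e' k * P.nsel k)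

noncomputable def lo (m : ℕ) : ℝ := (m.primeFactorsList.map (fun p => 3/16 * P.v (Nat.log 2 p))).prod

namespace Sel

variable {P} {k0 : ℕ} (S : P.Sel k0)

/-- control primes -/
def ctrl (p : ℕ) : Prop := ∃ m, (p, m) ∈ S.S

/-- the cofactor of a control prime -/
noncomputable def mo (p : ℕ) : ℕ := if h : ∃ m, (p, m) ∈ S.S then h.choose else 1

noncomputable def w (p : ℕ) : ℝ := P.Wk (Nat.log 2 (p * S.mo p)) / P.lo (S.mo p)

/-- majorant at primes -/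
noncomputable def wt (p : ℕ) : ℝ := if S.ctrl p then 2 * S.w p else if P.Ord k0 p then P.phi p else 0

/-- completely multiplicative majorant -/
noncomputable def WW (n : ℕ) : ℝ := (n.primeFactorsList.map S.wt).prod

/-- control part -/
noncomputable def cp (n : ℕ) : ℕ := (n.primeFactorsList.filter (fun p => S.ctrl p)).prod

/-- own integers of a cell -/
noncomputable def own (k j : ℕ) : Finset ℕ :=
  (P.cell k j).filter (fun n => (P.bad k j ∧ ∃ x ∈ S.S, x.1 * x.2 = n) ∨ (¬ P.bad k j ∧ P.Ord k0 n))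

/-- own integers of the initial cell -/
noncomputable def own0 : Finset ℕ := (Finset.Ico (2 ^ (k0 - 1)) (2 ^ k0)).filter (P.Ord k0)

end Sel

/-- alternating signs of the ordinary primes -/
noncomputable def sg (k0 p : ℕ) : ℝ := (-1) ^ ((Finset.range p).filter (P.Ord k0)).card

/-- sign of a product of ordinary primes -/
noncomputable def sgm (k0 m : ℕ) : ℝ := (m.primeFactorsList.map (P.sg k0)).prod

/-- index of the cell of `n`; everything below `2^k0` belongs to the initial cell `(0, 0)` -/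
noncomputable def cix (k0 n : ℕ) : ℕ × ℕ := if n < 2 ^ k0 then (0, 0) else (Nat.log 2 n, P.idx n)

namespace Sel

variable {P} {k0 : ℕ} (S : P.Sel k0)

/-- the function at primes, with parameters `t` -/
noncomputable def fp (t : ℕ × ℕ → ℝ) (p : ℕ) : ℝ :=
  if S.ctrl p then t (P.cix k0 (p * S.mo p)) * P.sgm k0 (S.mo p) * S.w p
  else if P.Ord k0 p then
    (P.sg k0 p + (if 2 ^ (k0 - 1) ≤ p then t (P.cix k0 p) / 4 else 0)) * P.v (Nat.log 2 p) / 4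
  else 0

/-- the completely multiplicative function -/
noncomputable def ft (t : ℕ × ℕ → ℝ) (n : ℕ) : ℝ := (n.primeFactorsList.map (S.fp t)).prod

end Sel

end Par

end Pool.Agent.Helper10.QRH
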