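import Pool.Agent.Helper96.CPAP.SieveK
import Pool.Agent.Helper44.MertensInterval

/-! Statements of Part B of project QRH (MP_768c9c_nt): integers n = q m in every interval [x, x+h),
h >= x^(1/2-phi), with a prime q >= x^(1/2+kappa) and m free of primes < x^eta. -/

set_option autoImplicit false
open Filter Topology
open scoped Classical

namespace Pool.Agent.Helper10.QRH

open Pool.Agent.Helper44 (primesUpTo)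

noncomputable def ee (x : ℝ) : ℂ := Complex.exp (2 * Real.pi * x * Complex.I)

noncomputable def psi1 (t : ℝ) : ℝ := Int.fract t - 1 / 2

/-- B1: van der Corput's second derivative test -/
def Vdc : Prop := ∃ C : ℝ, 0 < C ∧ ∀ (f f' f'' : ℝ → ℝ) (a b : ℕ) (lam A : ℝ), a < b → 0 < lam → 1 ≤ A →
    (∀ x ∈ Set.Icc (a : ℝ) b, HasDerivAt f (f' x) x) →
    (∀ x ∈ Set.Icc (a : ℝ) b, HasDerivAt f' (f'' x) x) →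
    (∀ x ∈ Set.Icc (a : ℝ) b, lam ≤ f'' x ∧ f'' x ≤ A * lam) →
    ‖∑ n ∈ Finset.Ioc a b, ee (f n)‖ ≤
      C * A * (((b : ℝ) - a) * Real.sqrt lam + 1 / Real.sqrt lam)

/-- B2: from exponential sums to the sawtooth function -/
def PsiApprox : Prop := ∃ C : ℝ, 0 < C ∧ ∀ (S : Finset ℕ) (g : ℕ → ℝ) (D : ℝ), 0 < D → D ≤ 1 →
    ∀ E : ℕ → ℝ, (∀ l : ℕ, 1 ≤ l → ‖∑ n ∈ S, ee (l * g n)‖ ≤ E l) →
    Summable (fun l : ℕ => min 1 ((l : ℝ) * D) / (l : ℝ) ^ 2 * E l) →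
    |∑ n ∈ S, psi1 (g n)| ≤
      C * (S.card * D + (1 / D) * ∑' l : ℕ, min 1 ((l : ℝ) * D) / (l : ℝ) ^ 2 * E l)

/-- B3 -/
def PsiSum : Prop := ∃ C : ℝ, 0 < C ∧ ∀ (B B' : ℕ) (α D : ℝ), 1 ≤ B → B ≤ B' → B' ≤ 3 * B → 0 < α →
    0 < D → D ≤ 1 →
    |∑ b ∈ Finset.Ioc B B', psi1 (α / b)| ≤
      C * (B * D + Real.sqrt (α / (B * D)) + Real.sqrt ((B : ℝ) ^ 3 / α))

/-- B4: lattice points -/
def Lattice : Prop := ∃ X0 : ℕ, ∀ x h D d1 d2 : ℕ, X0 ≤ x → (h : ℝ) ≤ (x : ℝ) ^ (1/2 : ℝ) →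
    (x : ℝ) ^ (0.48 : ℝ) ≤ D → (D : ℝ) ≤ (x : ℝ) ^ (0.52 : ℝ) → 1 ≤ d1 → 1 ≤ d2 →
    |((((Finset.Ioc D (2 * D)) ×ˢ (Finset.range (x + h))).filter (fun y : ℕ × ℕ =>
        d1 ∣ y.1 ∧ d2 ∣ y.2 ∧ x ≤ y.1 * y.2 ∧ y.1 * y.2 < x + h)).card : ℝ)
      - h * Real.log 2 / (d1 * d2)| ≤ (x : ℝ) ^ (0.48 : ℝ)

/-- B5: upper bound sieve for n = p m, both variables sieved -/
def PairSieve : Prop := ∃ θ C : ℝ, 0 < θ ∧ 0 < C ∧ ∀ η : ℝ, 0 < η → η ≤ θ → ∃ X0 : ℕ, ∀ x h D : ℕ,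
    X0 ≤ x → (x : ℝ) ^ (0.49 : ℝ) ≤ h → (h : ℝ) ≤ (x : ℝ) ^ (1/2 : ℝ) →
    (x : ℝ) ^ (0.48 : ℝ) ≤ D → (D : ℝ) ≤ (x : ℝ) ^ (0.52 : ℝ) →
    ((((Finset.Ioc D (2 * D)) ×ˢ (Finset.range (x + h))).filter (fun y : ℕ × ℕ =>
        y.1.Prime ∧ (∀ r : ℕ, r.Prime → r ∣ y.2 → (x : ℝ) ^ η < r) ∧
          x ≤ y.1 * y.2 ∧ y.1 * y.2 < x + h)).card : ℝ) ≤
      C * h / Real.log x * ∏ r ∈ primesUpTo ((x : ℝ) ^ η), (1 - (1 : ℝ) / r)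

/-- B6: fundamental lemma for rough numbers in short intervals -/
def Rough : Prop := ∀ ε : ℝ, 0 < ε → ∃ K z0 : ℝ, 1 ≤ K ∧ ∀ z : ℝ, z0 ≤ z → ∀ y l : ℕ,
    z ^ K ≤ (l : ℝ) →
    (1 - ε) * l * ∏ r ∈ primesUpTo z, (1 - (1 : ℝ) / r) ≤
      (((Finset.Ico y (y + l)).filter (fun n => ∀ r : ℕ, r.Prime → r ∣ n → z < r)).card : ℝ) ∧
    (((Finset.Ico y (y + l)).filter (fun n => ∀ r : ℕ, r.Prime → r ∣ n → z < r)).card : ℝ) ≤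
      (1 + ε) * l * ∏ r ∈ primesUpTo z, (1 - (1 : ℝ) / r)

/-- B7: few integers divisible by the square of a prime > z -/
def Squares : Prop := ∃ X0 : ℕ, ∀ x h : ℕ, X0 ≤ x → (h : ℝ) ≤ (x : ℝ) ^ (1/2 : ℝ) → ∀ z : ℝ,
    1 ≤ z →
    (((Finset.Ico x (x + h)).filter (fun n => ∃ p : ℕ, p.Prime ∧ z < p ∧ p ^ 2 ∣ n)).card : ℝ) ≤
      2 * h / z + 4 * (x : ℝ) ^ (1/3 : ℝ)

/-- B8: main theorem of Part B -/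
def HTwo : Prop := ∃ κ η φ c : ℝ, (0 < κ ∧ κ ≤ 1/8) ∧ (0 < η ∧ η ≤ 1/8) ∧ (0 < φ ∧ φ ≤ 1/8) ∧ 0 < c ∧
    ∃ X0 : ℕ, ∀ x h : ℕ, X0 ≤ x → (x : ℝ) ^ (1/2 - φ) ≤ h → (h : ℝ) ≤ (x : ℝ) ^ (1/2 : ℝ) →
    c * h / Real.log x ≤ (((Finset.Ico x (x + h)).filter (fun n => ∃ q m : ℕ, q.Prime ∧ n = q * m ∧
      (x : ℝ) ^ (1/2 + κ) ≤ q ∧ ∀ p : ℕ, p.Prime → p ∣ m → (x : ℝ) ^ η ≤ p)).card : ℝ)

end Pool.Agent.Helper10.QRH
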