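import Pool.Agent.Helper10.QRH.Defs

/-! Statements of Part C of project QRH (MP_768c9c_nt): the construction. -/

set_option autoImplicit false
open Filter Topology
open scoped Classical

namespace Pool.Agent.Helper10.QRH

variable (P : Par)

/-! ### C0: basic facts -/

/-- C0a: cells and parts -/
structure CellFacts : Prop where
  e_le : ∀ k : ℕ, P.e k ≤ k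
  mem_cell : ∀ {k j n : ℕ}, j < 2 ^ (k - P.e k) →
    (n ∈ P.cell k j ↔ n ≠ 0 ∧ Nat.log 2 n = k ∧ P.idx n = j)
  idx_lt : ∀ {n : ℕ}, n ≠ 0 → P.idx n < 2 ^ (Nat.log 2 n - P.e (Nat.log 2 n))
  sum_block : ∀ (f : ℕ → ℝ) (k : ℕ), ∑ n ∈ Finset.Ico (2 ^ k) (2 ^ (k + 1)), f n =
    ∑ j ∈ Finset.range (2 ^ (k - P.e k)), ∑ n ∈ P.cell k j, f n
  card_cell : ∀ k j : ℕ, (P.cell k j).card = 2 ^ P.e k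
  card_part : ∀ k j i : ℕ, (P.part k j i).card = 2 ^ (P.e k - P.e' k)
  part_subset : ∀ {k j i : ℕ}, P.e' k ≤ P.e k → i < 2 ^ P.e' k → P.part k j i ⊆ P.cell k j
  exists_part : ∀ {k j n : ℕ}, P.e' k ≤ P.e k → n ∈ P.cell k j → ∃ i < 2 ^ P.e' k, n ∈ P.part k j i
  part_unique : ∀ {k j i i' n : ℕ}, n ∈ P.part k j i → n ∈ P.part k j i' → i = i'

/-- C0b: candidate pairs -/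
structure CdFacts : Prop where
  unique : ∀ {k : ℕ}, 1 ≤ 2 * P.κ * k → ∀ {x y : ℕ × ℕ}, x ∈ P.Cd k → y ∈ P.Cd k →
    x.1 * x.2 = y.1 * y.2 → x = y
  block : ∀ {k : ℕ} {x : ℕ × ℕ}, x ∈ P.Cd k → Nat.log 2 (x.1 * x.2) = k
  card : ∃ K0 : ℕ, ∀ k0 : ℕ, K0 ≤ k0 → P.FewBad k0 → ∀ k : ℕ, k0 ≤ k →
    ∀ T : Finset (ℕ × ℕ), (∀ x ∈ T, x ∈ P.Cd k) →
    (T.card : ℝ) ≤ (2 : ℝ) ^ ((1/2 - P.d + P.ν) * k)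
  cof : ∀ {k : ℕ}, 2 ≤ k → ∀ {x : ℕ × ℕ}, x ∈ P.Cd k →
    (x.2 : ℝ) ≤ (2 : ℝ) ^ ((1/2 - P.κ) * k + 1) ∧ (x.2.primeFactorsList.length : ℝ) ≤ 1 / P.η
  mult_count : ∀ {q x h : ℕ}, 0 < q → ∀ T : Finset ℕ, (∀ a ∈ T, x ≤ q * a ∧ q * a < x + h) →
    (T.card : ℝ) ≤ (h : ℝ) / q + 1

/-- C0c: parameters and weights -/
structure PhiFacts : Prop where
  small : 0 < P.ν ∧ P.ν ≤ 1/1600 ∧ 200 * P.ν ≤ P.κ ∧ 200 * P.ν ≤ P.η ∧ 200 * P.ν ≤ P.φ ∧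
    P.d = P.ν / 100 ∧ P.s = P.ν / 200 ∧ 0 < P.g ∧ P.g ≤ P.ν / 1000 ∧ P.g ≤ P.κ * P.η / 10
  phi_pos : ∀ {x : ℝ}, 1 < x → 0 < P.phi x
  phi_anti : ∀ {x y : ℝ}, 1 < x → x ≤ y → P.phi y ≤ P.phi x
  phi_le : ∀ {x : ℝ}, 3 ≤ x → P.phi x ≤ x ^ (P.s - 1)
  v_pos : ∀ k : ℕ, 0 < P.v k
  v_le_phi : ∀ {n : ℕ}, 2 ≤ n → P.v (Nat.log 2 n) ≤ P.phi n
  phi_le_v : ∀ {n : ℕ}, 2 ≤ n → P.phi n ≤ 8 * P.v (Nat.log 2 n)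
  Gk_pos : ∀ {k : ℕ}, 1 ≤ k → 0 < P.Gk k
  nsel_pos : ∀ k : ℕ, 1 ≤ P.nsel k
  Wk_pos : ∀ {k : ℕ}, 1 ≤ k → 0 < P.Wk k
  lo_pos : ∀ m : ℕ, 0 < P.lo m

/-- C0d: the majorant -/
structure WFacts : Prop where
  WW_one : ∀ {k0 : ℕ} (S : P.Sel k0), S.WW 1 = 1
  WW_mul : ∀ {k0 : ℕ} (S : P.Sel k0) {a b : ℕ}, a ≠ 0 → b ≠ 0 → S.WW (a * b) = S.WW a * S.WW b
  WW_prime : ∀ {k0 : ℕ} (S : P.Sel k0) {p : ℕ}, p.Prime → S.WW p = S.wt p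
  ctrl_prime : ∀ {k0 : ℕ} (S : P.Sel k0) {p : ℕ}, S.ctrl p → p.Prime ∧ P.cand k0 p ∧
    ¬ P.Ord k0 p ∧ (p, S.mo p) ∈ S.S ∧ ∀ m, (p, m) ∈ S.S → m = S.mo p
  w_pos : ∀ {k0 : ℕ} (S : P.Sel k0), 1 ≤ k0 → ∀ {p : ℕ}, S.ctrl p → 0 < S.w p
  wt_nonneg : ∀ {k0 : ℕ} (S : P.Sel k0), 1 ≤ k0 → ∀ p : ℕ, 0 ≤ S.wt p
  WW_nonneg : ∀ {k0 : ℕ} (S : P.Sel k0), 1 ≤ k0 → ∀ n : ℕ, 0 ≤ S.WW n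
  cp_facts : ∀ {k0 : ℕ} (S : P.Sel k0) {n : ℕ}, n ≠ 0 →
    S.cp n ∣ n ∧ S.cp n ≠ 0 ∧ S.WW n = S.WW (S.cp n) * S.WW (n / S.cp n) ∧
    (∀ p : ℕ, p.Prime → p ∣ S.cp n → S.ctrl p) ∧
    (∀ p : ℕ, p.Prime → p ∣ n / S.cp n → ¬ S.ctrl p)
  ne_zero : ∀ {k0 : ℕ} (S : P.Sel k0) {n : ℕ}, n ≠ 0 → S.WW n ≠ 0 → ∀ {p : ℕ}, p.Prime → p ∣ n →
    S.ctrl p ∨ P.Ord k0 p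

/-- C1: numerical facts about cell lengths and selection numbers -/
def SizeFacts : Prop := ∃ K0 : ℕ, ∀ k : ℕ, K0 ≤ k →
    P.e' k + 1 ≤ P.e k ∧ P.e k ≤ k ∧
    (2 : ℝ) ^ ((1/2 - 0.02 * P.ν) * k) ≤ (2 : ℝ) ^ P.e k ∧ (2 : ℝ) ^ P.e k ≤ (2 : ℝ) ^ ((1/2 - P.d) * k) ∧
    (2 : ℝ) ^ ((1/2 - 4.02 * P.ν) * k) ≤ (2 : ℝ) ^ (P.e k - P.e' k) ∧
    (2 : ℝ) ^ (P.e k - P.e' k) ≤ 4 * (2 : ℝ) ^ ((1/2 - P.d - 4 * P.ν) * k) ∧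
    P.nsel k ≤ 2 ^ (P.e k - P.e' k) ∧ 1 ≤ P.nsel k ∧
    P.nsel k ≤ 2 * ((2 : ℝ) ^ (P.e k - P.e' k) * (2 : ℝ) ^ (-(P.g * k)))

/-- C2a: candidate primes are sparse -/
def CandSum : Prop := ∃ K0 : ℕ, ∀ k0 : ℕ, K0 ≤ k0 → P.FewBad k0 →
    ∀ T : Finset ℕ, (∀ q ∈ T, P.cand k0 q) →
    ∑ q ∈ T, (q : ℝ) ^ (-1 + P.κ / 2 + 4 * P.g) ≤ (2 : ℝ) ^ (-(P.κ / 2 * k0))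

/-- C2b: integers in bad cells are sparse -/
def BadSum : Prop := ∃ K0 : ℕ, ∀ k0 : ℕ, K0 ≤ k0 → P.FewBad k0 → ∀ Z : ℝ, 1 ≤ Z →
    ∀ T : Finset ℕ, (∀ n ∈ T, 2 ^ k0 ≤ n ∧ P.badN n ∧ Z ≤ n) →
    ∑ n ∈ T, (1 : ℝ) / n ≤ Z ^ (-0.4 : ℝ)

/-- C3a: trivial count -/
def CLa : Prop := ∃ K0 : ℕ, ∀ k0 : ℕ, K0 ≤ k0 → P.FewBad k0 → ∀ k : ℕ, k0 ≤ k → ∀ x h : ℕ,
    ∀ T : Finset (ℕ × ℕ × ℕ),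
    (∀ y ∈ T, (y.1, y.2.1) ∈ P.Cd k ∧ x ≤ y.1 * y.2.2 ∧ y.1 * y.2.2 < x + h) →
    (T.card : ℝ) ≤ h * (2 : ℝ) ^ (-((P.κ - P.ν) * k)) + (2 : ℝ) ^ ((1/2 + P.ν) * k)

/-- C3b: candidates of about the same size, cofactor not dividing -/
def CLb : Prop := ∃ K0 : ℕ, ∀ k0 : ℕ, K0 ≤ k0 → P.FewBad k0 → ∀ k k' : ℕ, k0 ≤ k → k0 ≤ k' →
    (1 - 15 * P.ν) * k' ≤ (k : ℝ) → (k : ℝ) ≤ (1 + 15 * P.ν) * k' → ∀ x h : ℕ,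
    2 ^ k' ≤ x → x + h ≤ 2 ^ (k' + 1) → (h : ℝ) ≤ (2 : ℝ) ^ ((k' : ℝ) / 2) →
    ∀ T : Finset (ℕ × ℕ × ℕ),
    (∀ y ∈ T, (y.1, y.2.1) ∈ P.Cd k ∧ x ≤ y.1 * y.2.2 ∧ y.1 * y.2.2 < x + h ∧ ¬ y.2.1 ∣ y.2.2) →
    (T.card : ℝ) ≤ (2 : ℝ) ^ ((1/2 - 100 * P.ν) * k')

/-- C3c: larger candidates -/
def CLc : Prop := ∃ K0 : ℕ, ∀ k0 : ℕ, K0 ≤ k0 → P.FewBad k0 → ∀ k k' : ℕ, k0 ≤ k → k0 ≤ k' →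
    ∀ ϖ : ℝ, 7 * P.ν ≤ ϖ → ϖ ≤ 15 * P.ν → (1 + ϖ) * k' ≤ (k : ℝ) → ∀ x h : ℕ,
    2 ^ k' ≤ x → x + h ≤ 2 ^ (k' + 1) → (h : ℝ) ≤ (2 : ℝ) ^ ((k' : ℝ) / 2) →
    ∀ T : Finset (ℕ × ℕ × ℕ),
    (∀ y ∈ T, (y.1, y.2.1) ∈ P.Cd k ∧ x ≤ y.1 * y.2.2 ∧ y.1 * y.2.2 < x + h) →
    (T.card : ℝ) ≤ (2 : ℝ) ^ ((1/2 - ϖ / 2 + 1.1 * P.ν) * k')

/-- C3: the counting lemma -/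
def CL : Prop := ∃ K0 : ℕ, ∀ k0 : ℕ, K0 ≤ k0 → P.FewBad k0 → ∀ k' : ℕ, k0 ≤ k' → ∀ x h : ℕ,
    2 ^ k' ≤ x → x + h ≤ 2 ^ (k' + 1) → (h : ℝ) ≤ (2 : ℝ) ^ ((k' : ℝ) / 2) → ∀ ϖ φ' : ℝ,
    ((ϖ = 7 * P.ν ∧ φ' = 0.02 * P.ν) ∨ (ϖ = 15 * P.ν ∧ φ' = 4.02 * P.ν)) →
    (2 : ℝ) ^ ((1/2 - φ') * k') ≤ h → ∀ T : Finset (ℕ × ℕ × ℕ),
    (∀ y ∈ T, ∃ k : ℕ, k0 ≤ k ∧ (y.1, y.2.1) ∈ P.Cd k ∧ x ≤ y.1 * y.2.2 ∧ y.1 * y.2.2 < x + h ∧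
      (2 : ℝ) ^ ((k' : ℝ) / 10) ≤ y.1 ∧
      (¬ y.2.1 ∣ y.2.2 ∨ (k : ℝ) ≤ (1 - ϖ) * k' ∨ (1 + ϖ) * k' ≤ (k : ℝ))) →
    (T.card : ℝ) ≤ h * (2 : ℝ) ^ (-(0.9 * P.ν * k'))

/-- C4a: enough clean candidates in every part of a bad cell -/
def CleanCount : Prop := ∃ K0 : ℕ, ∀ k0 : ℕ, K0 ≤ k0 → P.FewBad k0 → P.Many k0 → ∀ k : ℕ, k0 ≤ k →
    ∀ j < 2 ^ (k - P.e k), P.bad k j → ∀ i < 2 ^ P.e' k,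
    P.nsel k ≤ ((P.part k j i).filter (fun n => ∃ x ∈ P.clean k0 k, x.1 * x.2 = n)).card

/-- C4b -/
def ExistsSel : Prop := ∃ K0 : ℕ, ∀ k0 : ℕ, K0 ≤ k0 → P.FewBad k0 → P.Many k0 → Nonempty (P.Sel k0)

/-- C5a: good cells have many ordinary primes -/
def OrdGood : Prop := ∃ K0 : ℕ, ∀ k0 : ℕ, K0 ≤ k0 → P.FewBad k0 → ∀ k : ℕ, k0 ≤ k →
    ∀ j < 2 ^ (k - P.e k), ¬ P.bad k j →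
    (2 : ℝ) ^ P.e k / (60 * k) ≤ (((P.cell k j).filter (P.Ord k0)).card : ℝ)

/-- C5b: the block `k0 - 1` has many ordinary primes -/
def OrdInit : Prop := ∃ K0 : ℕ, ∀ k0 : ℕ, K0 ≤ k0 → P.FewBad k0 →
    (2 : ℝ) ^ k0 / (4 * k0) ≤ (((Finset.Ico (2 ^ (k0 - 1)) (2 ^ k0)).filter (P.Ord k0)).card : ℝ)

/-- C6a: size of the weights -/
def WtSize : Prop := ∃ K0 : ℕ, ∀ k0 : ℕ, K0 ≤ k0 → P.FewBad k0 → ∀ S : P.Sel k0,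
    (∀ p : ℕ, S.wt p ≤ (p : ℝ) ^ (P.s - 1 + 4 * P.g)) ∧
    (∀ p : ℕ, p < P.P1 k0 → S.wt p = 0) ∧
    (∀ n : ℕ, 1 ≤ n → S.WW n ≤ (n : ℝ) ^ (P.s - 1 + 4 * P.g))

/-- C6b: the integers `n = q m`, `(q, m) ∈ S`, have weight about `W_k` -/
def WWSel : Prop := ∃ K : ℝ, 0 < K ∧ ∃ K0 : ℕ, ∀ k0 : ℕ, K0 ≤ k0 → P.FewBad k0 → ∀ S : P.Sel k0,
    ∀ x ∈ S.S, S.WW (x.1 * x.2) ≤ K * P.Wk (Nat.log 2 (x.1 * x.2))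

/-- C7a -/
def SumWW : Prop := ∀ ε : ℝ, 0 < ε → ∃ K0 : ℕ, ∀ k0 : ℕ, K0 ≤ k0 → P.FewBad k0 → ∀ S : P.Sel k0,
    ∀ T : Finset ℕ, (∀ r ∈ T, 2 ≤ r) → ∑ r ∈ T, S.WW r * (r : ℝ) ^ (-P.s) ≤ ε

/-- C7b: Rankin bound for products of control primes -/
def Rankin : Prop := ∃ K0 : ℕ, ∀ k0 : ℕ, K0 ≤ k0 → P.FewBad k0 → ∀ S : P.Sel k0, ∀ Z : ℝ, 1 ≤ Z →
    ∀ T : Finset ℕ, (∀ b ∈ T, Z ≤ b ∧ 1 ≤ b ∧ ∀ p : ℕ, p.Prime → p ∣ b → S.ctrl p) →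
    ∑ b ∈ T, S.WW b * (b : ℝ) ^ (-P.s) ≤ 2 * Z ^ (-(P.κ / 2))

/-- C8-I -/
def Class1 : Prop := ∀ ε : ℝ, 0 < ε → ∃ K0 : ℕ, ∀ k0 : ℕ, K0 ≤ k0 → P.FewBad k0 → ∀ S : P.Sel k0,
    ∀ k : ℕ, k0 ≤ k → ∀ j < 2 ^ (k - P.e k),
    ∑ n ∈ (P.cell k j).filter (fun n => n ∉ S.own k j ∧
      ∃ p, P.Ord k0 p ∧ p ∣ n ∧ (2 : ℝ) ^ (0.8 * (k : ℝ)) ≤ p), S.WW n ≤ ε * P.Gk k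

/-- C8-II -/
def Class2 : Prop := ∀ ε : ℝ, 0 < ε → ∃ K0 : ℕ, ∀ k0 : ℕ, K0 ≤ k0 → P.FewBad k0 → ∀ S : P.Sel k0,
    ∀ k : ℕ, k0 ≤ k → ∀ j < 2 ^ (k - P.e k),
    ∑ n ∈ (P.cell k j).filter (fun n =>
      (¬ ∃ p, P.Ord k0 p ∧ p ∣ n ∧ (2 : ℝ) ^ (0.8 * (k : ℝ)) ≤ p) ∧
      (S.cp n : ℝ) < (2 : ℝ) ^ ((k : ℝ) / 20)), S.WW n ≤ ε * P.Gk k

/-- C8-III -/
def Class3 : Prop := ∀ ε : ℝ, 0 < ε → ∃ K0 : ℕ, ∀ k0 : ℕ, K0 ≤ k0 → P.FewBad k0 → ∀ S : P.Sel k0,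
    ∀ k : ℕ, k0 ≤ k → ∀ j < 2 ^ (k - P.e k),
    ∑ n ∈ (P.cell k j).filter (fun n => (2 : ℝ) ^ ((k : ℝ) / 20) ≤ S.cp n ∧
      ∀ p, S.ctrl p → p ∣ n → (p : ℝ) < (2 : ℝ) ^ ((k : ℝ) / 10)), S.WW n ≤ ε * P.Gk k

/-- C8-IV -/
def Class4 : Prop := ∀ ε : ℝ, 0 < ε → ∃ K0 : ℕ, ∀ k0 : ℕ, K0 ≤ k0 → P.FewBad k0 → ∀ S : P.Sel k0,
    ∀ k : ℕ, k0 ≤ k → ∀ j < 2 ^ (k - P.e k),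
    ∑ n ∈ (P.cell k j).filter (fun n => ∃ p, S.ctrl p ∧ p ∣ n ∧ (2 : ℝ) ^ ((k : ℝ) / 10) ≤ p ∧
      (¬ S.mo p ∣ n / p ∨ (Nat.log 2 (p * S.mo p) : ℝ) ≤ (1 - 7 * P.ν) * k ∨
        (1 + 7 * P.ν) * k ≤ (Nat.log 2 (p * S.mo p) : ℝ))), S.WW n ≤ ε * P.Gk k

/-- C8-V -/
def Class5 : Prop := ∀ ε : ℝ, 0 < ε → ∃ K0 : ℕ, ∀ k0 : ℕ, K0 ≤ k0 → P.FewBad k0 → ∀ S : P.Sel k0,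
    ∀ k : ℕ, k0 ≤ k → ∀ j < 2 ^ (k - P.e k),
    ∑ n ∈ (P.cell k j).filter (fun n => n ∉ S.own k j ∧ ∃ p, S.ctrl p ∧ p ∣ n ∧ S.mo p ∣ n / p ∧
      (1 - 7 * P.ν) * k < (Nat.log 2 (p * S.mo p) : ℝ) ∧
      (Nat.log 2 (p * S.mo p) : ℝ) < (1 + 7 * P.ν) * k), S.WW n ≤ ε * P.Gk k

/-- C9a -/
def OthersCell : Prop := ∀ ε : ℝ, 0 < ε → ∃ K0 : ℕ, ∀ k0 : ℕ, K0 ≤ k0 → P.FewBad k0 →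
    ∀ S : P.Sel k0, ∀ k : ℕ, k0 ≤ k → ∀ j < 2 ^ (k - P.e k),
    ∑ n ∈ (P.cell k j).filter (fun n => n ∉ S.own k j), S.WW n ≤ ε * P.Gk k

/-- C9b -/
def OthersInit : Prop := ∀ ε : ℝ, 0 < ε → ∃ K0 : ℕ, ∀ k0 : ℕ, K0 ≤ k0 → P.FewBad k0 →
    ∀ S : P.Sel k0, ∑ n ∈ (Finset.Ico 1 (2 ^ k0)).filter (fun n => ¬ P.Ord k0 n), S.WW n ≤
      ε * ((2 : ℝ) ^ (P.s * k0) / k0 ^ 3)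

/-- C10: balanced signs -/
def SgSum : Prop := ∀ k0 a b : ℕ, |∑ p ∈ (Finset.Ico a b).filter (P.Ord k0), P.sg k0 p| ≤ 1

/-- C11: majorants -/
def Majorant : Prop := ∀ k0 : ℕ, 1 ≤ k0 → ∀ S : P.Sel k0,
    ∀ t t' : ℕ × ℕ → ℝ, (∀ i, |t i| ≤ 1) → (∀ i, |t' i| ≤ 1) → ∀ D : ℝ, (∀ i, |t i - t' i| ≤ D) →
    ∀ n : ℕ, 1 ≤ n → |S.ft t n| ≤ S.WW n ∧ |S.ft t n - S.ft t' n| ≤ S.WW n * D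

/-- C12: values at own integers of bad cells -/
def FtOwn : Prop := ∃ K : ℝ, 0 < K ∧ ∀ k0 : ℕ, 2 ≤ k0 → ∀ S : P.Sel k0,
    ∀ x ∈ S.S, ∀ t : ℕ × ℕ → ℝ, (∀ i, |t i| ≤ 1) →
    S.ft t (x.1 * x.2) = t (P.cix k0 (x.1 * x.2)) * (S.w x.1 * |S.ft t x.2|) ∧
      P.Wk (Nat.log 2 (x.1 * x.2)) ≤ S.w x.1 * |S.ft t x.2| ∧
      ∀ t' : ℕ × ℕ → ℝ, (∀ i, |t' i| ≤ 1) → ∀ D : ℝ, (∀ i, |t i - t' i| ≤ D) →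
        |(S.w x.1 * |S.ft t x.2|) - (S.w x.1 * |S.ft t' x.2|)| ≤ K * P.Wk (Nat.log 2 (x.1 * x.2)) * D

/-- C13: the fixed point lemma -/
def FixedPoint : Prop := ∀ {ι : Type} (B R : (ι → ℝ) → ι → ℝ) (G : ι → ℝ) (ε K : ℝ), (∀ i, 0 < G i) →
    0 ≤ ε → 0 ≤ K → ε * (1 + K) ≤ 1/2 →
    (∀ t : ι → ℝ, (∀ i, |t i| ≤ 1) → ∀ i, G i ≤ B t i) →
    (∀ t : ι → ℝ, (∀ i, |t i| ≤ 1) → ∀ i, |R t i| ≤ ε * G i) →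
    (∀ t t' : ι → ℝ, (∀ i, |t i| ≤ 1) → (∀ i, |t' i| ≤ 1) → ∀ D : ℝ,
      (∀ i, |t i - t' i| ≤ D) → ∀ i, |B t i - B t' i| ≤ K * G i * D) →
    (∀ t t' : ι → ℝ, (∀ i, |t i| ≤ 1) → (∀ i, |t' i| ≤ 1) → ∀ D : ℝ,
      (∀ i, |t i - t' i| ≤ D) → ∀ i, |R t i - R t' i| ≤ ε * G i * D) →
    ∃ t : ι → ℝ, (∀ i, |t i| ≤ 1) ∧ ∀ i, t i * B t i + R t i = 0

/-- C14: all cell sums vanish for suitable parameters -/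
def System : Prop := ∃ K0 : ℕ, ∀ k0 : ℕ, K0 ≤ k0 → P.FewBad k0 → ∀ S : P.Sel k0,
    ∃ t : ℕ × ℕ → ℝ, (∀ i, |t i| ≤ 1) ∧ ∑ n ∈ Finset.Ico 1 (2 ^ k0), S.ft t n = 0 ∧
      ∀ k : ℕ, k0 ≤ k → ∀ j < 2 ^ (k - P.e k), ∑ n ∈ P.cell k j, S.ft t n = 0

/-- C15: conclusion of Part C -/
def PartC : Prop := ∃ K0 : ℕ, ∀ k0 : ℕ, K0 ≤ k0 → P.FewBad k0 → P.Many k0 →
    ∃ f : ℕ → ℝ, f 1 = 1 ∧ (∀ m n : ℕ, 0 < m → 0 < n → f (m * n) = f m * f n) ∧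
      ∃ C : ℝ, ∀ N : ℕ, 0 < N → |∑ n ∈ Finset.Icc 1 N, f n| ≤ C * (N : ℝ) ^ (-(1/2 + (P.d - P.s)))

end Pool.Agent.Helper10.QRH
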