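import Pool.Agent.Helper10.QRH.StA
import Pool.Agent.Helper10.QRH.StB
import Pool.Agent.Helper10.QRH.StC

/-! Final assembly of project QRH (MP_768c9c_nt). -/

set_option autoImplicit false
open Filter Topology
open scoped Classical

namespace Pool.Agent.Helper10.QRH

/-- `C k^2 ≤ 2^(a k)` for large `k` -/
lemma poly_le_exp (C a : ℝ) (ha : 0 < a) (n : ℕ) : ∃ K : ℕ, ∀ k : ℕ, K ≤ k →
    C * (k : ℝ) ^ n ≤ (2 : ℝ) ^ (a * k) := by
  have h1 : Tendsto (fun k : ℕ => C * ((k : ℝ) ^ n / ((2 : ℝ) ^ a) ^ k)) atTop (𝓝 (C * 0)) := by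
    apply Tendsto.const_mul
    have h2 : 1 < (2 : ℝ) ^ a := Real.one_lt_rpow (by norm_num) ha
    exact tendsto_pow_const_div_const_pow_of_one_lt n h2
  rw [mul_zero] at h1
  have h3 := h1.eventually (gt_mem_nhds (show (0 : ℝ) < 1 by norm_num))
  obtain ⟨K, hK⟩ := eventually_atTop.mp h3
  refine ⟨K, fun k hk => ?_⟩
  have h4 := hK k hk
  have h5 : (0 : ℝ) < ((2 : ℝ) ^ a) ^ k := by positivity
  have h6 : (2 : ℝ) ^ (a * k) = ((2 : ℝ) ^ a) ^ k := by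
    rw [Real.rpow_mul (by norm_num), Real.rpow_natCast]
  rw [h6]
  rw [← mul_div_assoc, div_lt_one h5] at h4
  exact h4.le

lemma par_ν_pos (P : Par) : 0 < P.ν := by
  unfold Par.ν
  have := P.κ0; have := P.η0; have := P.φ0
  have h : 0 < min P.κ (min P.η P.φ) := by
    simp only [lt_min_iff]
    exact ⟨P.κ0, P.η0, P.φ0⟩
  positivity

lemma par_ν_le (P : Par) : 200 * P.ν ≤ P.κ ∧ 200 * P.ν ≤ P.η ∧ 200 * P.ν ≤ P.φ := by
  unfold Par.ν
  have h1 : min P.κ (min P.η P.φ) ≤ P.κ := min_le_left _ _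
  have h2 : min P.κ (min P.η P.φ) ≤ P.η := (min_le_right _ _).trans (min_le_left _ _)
  have h3 : min P.κ (min P.η P.φ) ≤ P.φ := (min_le_right _ _).trans (min_le_right _ _)
  refine ⟨by linarith, by linarith, by linarith⟩

/-- few bad cells -/
lemma fewBad_of (hA : BadCells) (P : Par)
    (hfin : {ρ : ℂ | riemannZeta ρ = 0 ∧ 1/2 + (P.d - P.s) < ρ.re}.Finite) :
    ∃ K0 : ℕ, ∀ k0 : ℕ, K0 ≤ k0 → P.FewBad k0 := by
  have hν := par_ν_pos P
  have hν1 := (par_ν_le P).1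
  have hκ1 := P.κ1
  have hd : P.d = P.ν / 100 := rfl
  have hs : P.s = P.ν / 200 := rfl
  obtain ⟨C, hC⟩ := hA (1/2 + (P.d - P.s)) (1/2 + 0.4 * P.ν) (by rw [hd, hs]; linarith)
    (by rw [hd, hs]; linarith) (by linarith) hfin
  obtain ⟨K1, hK1⟩ := poly_le_exp (4 * |C|) (0.18 * P.ν) (by positivity) 2
  refine ⟨max K1 1, fun k0 hk0 k hk => ?_⟩
  have hk1 : K1 ≤ k := (le_max_left _ _).trans (hk0.trans hk)
  have hk2 : 1 ≤ k := (le_max_right _ _).trans (hk0.trans hk)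
  have hkR : (0 : ℝ) ≤ k := Nat.cast_nonneg k
  have he : P.e k ≤ k := by
    unfold Par.e
    apply Nat.floor_le_of_le
    have : (k : ℝ) * (1/2 - P.d) ≤ k * 1 := by
      apply mul_le_mul_of_nonneg_left _ hkR
      rw [hd]; linarith
    linarith
  have h1 := hC k (P.e k) hk2 he
  have h2 : (((Finset.range (2 ^ (k - P.e k))).filter (fun j => P.bad k j)).card : ℝ) ≤
      C * (k : ℝ) ^ 2 * (2 : ℝ) ^ (2 * (1/2 + 0.4 * P.ν) * k) / (2 : ℝ) ^ (2 * P.e k) := by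
    refine le_trans (le_of_eq ?_) h1
    congr 1
  refine h2.trans ?_
  have h3 : (2 : ℝ) ^ ((1 - 2 * P.d) * k - 2) ≤ (2 : ℝ) ^ (2 * P.e k) := by
    rw [← Real.rpow_natCast]
    apply Real.rpow_le_rpow_of_exponent_le (by norm_num)
    have : (k : ℝ) * (1/2 - P.d) < (P.e k : ℝ) + 1 := Nat.lt_floor_add_one _
    push_cast
    linarith
  have h4 : 0 < (2 : ℝ) ^ ((1 - 2 * P.d) * k - 2) := by positivity
  have h5 := hK1 k hk1
  have h6 : C ≤ |C| := le_abs_self C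
  calc C * (k : ℝ) ^ 2 * (2 : ℝ) ^ (2 * (1/2 + 0.4 * P.ν) * k) / (2 : ℝ) ^ (2 * P.e k)
      ≤ |C| * (k : ℝ) ^ 2 * (2 : ℝ) ^ (2 * (1/2 + 0.4 * P.ν) * k) / (2 : ℝ) ^ (2 * P.e k) := by
        gcongr
    _ ≤ |C| * (k : ℝ) ^ 2 * (2 : ℝ) ^ (2 * (1/2 + 0.4 * P.ν) * k) /
          (2 : ℝ) ^ ((1 - 2 * P.d) * k - 2) := by
        apply div_le_div_of_nonneg_left (by positivity) h4 h3
    _ = 4 * |C| * (k : ℝ) ^ 2 * (2 : ℝ) ^ (0.82 * P.ν * k) := by
        rw [mul_div_assoc, ← Real.rpow_sub (by norm_num)]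
        have : 2 * (1/2 + 0.4 * P.ν) * k - ((1 - 2 * P.d) * k - 2) = 0.82 * P.ν * k + 2 := by
          rw [hd]; ring
        rw [this, Real.rpow_add (by norm_num)]
        norm_num
        ring
    _ ≤ (2 : ℝ) ^ (0.18 * P.ν * k) * (2 : ℝ) ^ (0.82 * P.ν * k) := by gcongr
    _ = (2 : ℝ) ^ (P.ν * k) := by
        rw [← Real.rpow_add (by norm_num)]
        congr 1
        ring

/-- many integers `q m` -/
lemma many_of (P : Par) (X0 : ℕ)
    (h : ∀ x h : ℕ, X0 ≤ x → (x : ℝ) ^ (1/2 - P.φ) ≤ h → (h : ℝ) ≤ (x : ℝ) ^ (1/2 : ℝ) →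
    P.c * h / Real.log x ≤ (((Finset.Ico x (x + h)).filter (fun n => ∃ q m : ℕ, q.Prime ∧ n = q * m ∧
      (x : ℝ) ^ (1/2 + P.κ) ≤ q ∧ ∀ p : ℕ, p.Prime → p ∣ m → (x : ℝ) ^ P.η ≤ p)).card : ℝ)) :
    ∃ K0 : ℕ, ∀ k0 : ℕ, K0 ≤ k0 → P.Many k0 := by
  have hν := par_ν_pos P
  have hν1 := (par_ν_le P).2.2
  have hφ1 := P.φ1
  have hφ0 := P.φ0
  have hκ0 := P.κ0
  have hη0 := P.η0
  obtain ⟨K1, hK1⟩ := exists_nat_ge (1 / P.ν)
  refine ⟨max (max K1 X0) 3, fun k0 hk0 k hk x h' hx hxh hh1 hh2 => ?_⟩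
  have hk1 : K1 ≤ k := ((le_max_left _ _).trans (le_max_left _ _)).trans (hk0.trans hk)
  have hk2 : X0 ≤ k := ((le_max_right _ _).trans (le_max_left _ _)).trans (hk0.trans hk)
  have hk3 : 3 ≤ k := (le_max_right _ _).trans (hk0.trans hk)
  have hkR : (3 : ℝ) ≤ k := by exact_mod_cast hk3
  have hk2x : k < 2 ^ k := Nat.lt_two_pow_self
  have hxX : X0 ≤ x := by omega
  have hxR : ((2 : ℝ) ^ (k : ℝ)) ≤ x := by
    rw [Real.rpow_natCast]; exact_mod_cast hx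
  have h2k : (0 : ℝ) < (2 : ℝ) ^ (k : ℝ) := by positivity
  have hx0 : (0 : ℝ) < x := lt_of_lt_of_le h2k hxR
  have hxlt : (x : ℝ) ≤ (2 : ℝ) ^ ((k : ℝ) + 1) := by
    have : x ≤ 2 ^ (k + 1) := by omega
    have h2 : ((2 : ℝ) ^ ((k : ℝ) + 1)) = ((2 ^ (k + 1) : ℕ) : ℝ) := by
      push_cast
      rw [← Real.rpow_natCast]
      push_cast
      rfl
    rw [h2]; exact_mod_cast this
  have hνk : 1 ≤ P.ν * k := by
    have : 1 / P.ν ≤ k := hK1.trans (by exact_mod_cast hk1)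
    rw [div_le_iff₀ hν] at this
    linarith
  have h1 := h x h' hxX ?_ ?_
  · refine le_trans ?_ (h1.trans ?_)
    · -- c h / k ≤ c h / log x
      have hlog : Real.log x ≤ k := by
        calc Real.log x ≤ Real.log ((2 : ℝ) ^ ((k : ℝ) + 1)) := Real.log_le_log hx0 hxlt
          _ = ((k : ℝ) + 1) * Real.log 2 := Real.log_rpow (by norm_num) _
          _ ≤ ((k : ℝ) + 1) * 0.7 := by
              apply mul_le_mul_of_nonneg_left _ (by linarith)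
              have := Real.log_two_lt_d9
              linarith
          _ ≤ k := by linarith
      have hlog0 : 0 < Real.log x := by
        apply Real.log_pos
        have : (2 : ℝ) ^ (1 : ℝ) ≤ (2 : ℝ) ^ (k : ℝ) :=
          Real.rpow_le_rpow_of_exponent_le (by norm_num) (by linarith)
        rw [Real.rpow_one] at this
        linarith
      apply div_le_div_of_nonneg_left _ hlog0 hlog
      have := P.c0
      positivity
    · norm_cast
      apply Finset.card_le_card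
      intro n hn
      rw [Finset.mem_filter] at hn ⊢
      obtain ⟨hn1, q, m, hq, hnm, hqx, hm⟩ := hn
      refine ⟨hn1, q, m, hq, hnm, ?_, ?_⟩
      · refine le_trans ?_ hqx
        have : (2 : ℝ) ^ ((1/2 + P.κ) * (k : ℝ)) = ((2 : ℝ) ^ (k : ℝ)) ^ (1/2 + P.κ) := by
          rw [← Real.rpow_mul (by norm_num)]; congr 1; ring
        rw [this]
        exact Real.rpow_le_rpow h2k.le hxR (by linarith)
      · intro p hp hpm
        refine le_trans ?_ (hm p hp hpm)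
        have : (2 : ℝ) ^ (P.η * (k : ℝ)) = ((2 : ℝ) ^ (k : ℝ)) ^ P.η := by
          rw [← Real.rpow_mul (by norm_num)]; congr 1; ring
        rw [this]
        exact Real.rpow_le_rpow h2k.le hxR hη0.le
  · refine le_trans ?_ hh1
    calc (x : ℝ) ^ (1/2 - P.φ) ≤ ((2 : ℝ) ^ ((k : ℝ) + 1)) ^ (1/2 - P.φ) :=
          Real.rpow_le_rpow hx0.le hxlt (by linarith)
      _ = (2 : ℝ) ^ (((k : ℝ) + 1) * (1/2 - P.φ)) := by rw [← Real.rpow_mul (by norm_num)]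
      _ ≤ (2 : ℝ) ^ ((1/2 - 5 * P.ν) * (k : ℝ)) := by
          apply Real.rpow_le_rpow_of_exponent_le (by norm_num)
          nlinarith
  · refine hh2.trans ?_
    have : (2 : ℝ) ^ ((k : ℝ) / 2) = ((2 : ℝ) ^ (k : ℝ)) ^ (1/2 : ℝ) := by
      rw [← Real.rpow_mul (by norm_num)]; congr 1; ring
    rw [this]
    exact Real.rpow_le_rpow h2k.le hxR (by norm_num)

/-- number of cells `[2^k + j H, 2^k + (j+1) H)`, `H = 2^e`, in `[2^k, 2^(k+1))` that contain fewer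
than `H / (50 k)` primes -/
noncomputable def numBad (k e : ℕ) : ℕ :=
  ((Finset.range (2 ^ (k - e))).filter (fun j =>
    ((((Finset.Ico (2 ^ k + j * 2 ^ e) (2 ^ k + (j + 1) * 2 ^ e)).filter Nat.Prime).card : ℕ) : ℝ)
      < (2 : ℝ) ^ e / (50 * k))).card

theorem final (hA : BadCells) (hB : HTwo) (hC : ∀ P : Par, PartC P) :
    ∃ δ : ℝ, 0 < δ ∧
      (({ρ : ℂ | riemannZeta ρ = 0 ∧ 1/2 + δ < ρ.re}.Infinite ∧
        ∀ K : ℕ, ∃ k : ℕ, K ≤ k ∧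
          (2 : ℝ) ^ (200 * δ * k) < (numBad k ⌊(k : ℝ) * (1/2 - 2 * δ)⌋₊ : ℝ)) ∨
      ∃ f : ℕ → ℝ, f 1 = 1 ∧ (∀ m n : ℕ, 0 < m → 0 < n → f (m * n) = f m * f n) ∧
        ∃ C : ℝ, ∀ N : ℕ, 0 < N →
          |∑ n ∈ Finset.Icc 1 N, f n| ≤ C * (N : ℝ) ^ (-(1/2 + δ))) := by
  obtain ⟨κ, η, φ, c, ⟨hκ0, hκ1⟩, ⟨hη0, hη1⟩, ⟨hφ0, hφ1⟩, hc, X0, hX⟩ := hB
  let P : Par := ⟨κ, η, φ, c, hκ0, hκ1, hη0, hη1, hφ0, hφ1, hc⟩
  have hν := par_ν_pos P
  have hd : P.d = P.ν / 100 := rfl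
  have hs : P.s = P.ν / 200 := rfl
  refine ⟨P.d - P.s, by rw [hd, hs]; linarith, ?_⟩
  by_cases hfew : ∃ K0 : ℕ, ∀ k0 : ℕ, K0 ≤ k0 → P.FewBad k0
  · right
    obtain ⟨K1, hK1⟩ := hfew
    obtain ⟨K2, hK2⟩ := many_of P X0 hX
    obtain ⟨K3, hK3⟩ := hC P
    exact hK3 (max K1 (max K2 K3)) ((le_max_right _ _).trans (le_max_right _ _))
      (hK1 _ (le_max_left _ _)) (hK2 _ ((le_max_left _ _).trans (le_max_right _ _)))
  · left
    refine ⟨fun hfin => hfew (fewBad_of hA P hfin), fun K => ?_⟩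
    by_contra hcon
    push Not at hcon
    apply hfew
    refine ⟨K, fun k0 hk0 k hk => ?_⟩
    have h1 := hcon k (hk0.trans hk)
    have e1 : P.e k = ⌊(k : ℝ) * (1/2 - 2 * (P.d - P.s))⌋₊ := by
      unfold Par.e
      congr 2
      rw [hd, hs]; ring
    have e2 : (2 : ℝ) ^ (200 * (P.d - P.s) * k) = (2 : ℝ) ^ (P.ν * k) := by
      congr 1
      rw [hd, hs]; ring
    rw [e2, ← e1] at h1
    refine le_trans (le_of_eq ?_) h1
    unfold numBad
    congr 1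

end Pool.Agent.Helper10.QRH
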