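import Mathlib

/-! Statements of Part A of project QRH (MP_768c9c_nt): primes in short cells under a zero-free
half plane with finitely many exceptions. -/

set_option autoImplicit false
open Filter Topology MeasureTheory

namespace Pool.Agent.Helper10.QRH

/-- triangle kernel -/
noncomputable def tri (lam v : ℝ) : ℝ := max 0 (1 - |v| / lam) / lam

/-- its Laplace transform (entire function of s) -/
noncomputable def KK (lam : ℝ) (s : ℂ) : ℂ := ∫ v : ℝ, (tri lam v : ℂ) * Complex.exp (-s * v)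

/-- A0 -/
def ZetaGrowth : Prop := ∃ C : ℝ, ∀ s : ℂ, 1/2 ≤ s.re → s.re ≤ 4 →
    ‖(s - 1) * riemannZeta s‖ ≤ C * (1 + ‖s‖) ^ 2

/-- A1 -/
def FactorFinite : Prop := ∀ (F : ℂ → ℂ), Differentiable ℂ F → ∀ U : Set ℂ, IsOpen U →
    IsPreconnected U → (∃ z ∈ U, F z ≠ 0) → {z : ℂ | z ∈ U ∧ F z = 0}.Finite →
    ∃ (M : Multiset ℂ) (Z : ℂ → ℂ), Differentiable ℂ Z ∧ (∀ z ∈ U, Z z ≠ 0) ∧
      (∀ ρ ∈ M, ρ ∈ U ∧ F ρ = 0) ∧ ∀ z, F z = (M.map (fun ρ => z - ρ)).prod * Z z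

/-- properties of the function `G = -ζ'/ζ - 1/(s-1) + ∑ 1/(s-ρ)` -/
structure GProp (σ₀ : ℝ) (M : Multiset ℂ) (G : ℂ → ℂ) : Prop where
  mem : ∀ ρ ∈ M, σ₀ < ρ.re ∧ ρ.re < 1
  diff : DifferentiableOn ℂ G {s | σ₀ < s.re}
  eq : ∀ s : ℂ, 1 < s.re → G s = LSeries (fun n => (ArithmeticFunction.vonMangoldt n : ℂ)) s
        - 1 / (s - 1) + (M.map (fun ρ => 1 / (s - ρ))).sum
  bound : ∀ σ₁ : ℝ, σ₀ < σ₁ → ∃ C : ℝ, ∀ s : ℂ, σ₁ ≤ s.re → s.re ≤ 2 →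
        ‖G s‖ ≤ C * Real.log (2 + |s.im|)

/-- A2 -/
def ExistsG : Prop := ∀ σ₀ : ℝ, 1/2 ≤ σ₀ → σ₀ < 1 →
    {ρ : ℂ | riemannZeta ρ = 0 ∧ σ₀ < ρ.re}.Finite → ∃ (M : Multiset ℂ) (G : ℂ → ℂ), GProp σ₀ M G

/-- A3 -/
structure KFacts : Prop where
  diff : ∀ lam : ℝ, 0 < lam → Differentiable ℂ (KK lam)
  bound : ∃ C : ℝ, ∀ lam : ℝ, 0 < lam → lam ≤ 1 → ∀ s : ℂ, 0 ≤ s.re → s.re ≤ 2 →
      ‖KK lam s‖ ≤ C / (1 + (lam * s.im) ^ 2)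
  inv : ∀ lam c v : ℝ, 0 < lam → (tri lam v : ℂ) =
      (1 / (2 * Real.pi)) * ∫ t : ℝ, KK lam (c + t * Complex.I) *
        Complex.exp ((c + t * Complex.I) * v)

/-- A4: explicit formula -/
def Explicit : Prop := ∀ (σ₀ σ₁ : ℝ), 1/2 ≤ σ₀ → σ₀ < σ₁ → σ₁ < 1 →
    ∀ (M : Multiset ℂ) (G : ℂ → ℂ), GProp σ₀ M G → ∀ lam u : ℝ, 0 < lam → lam ≤ 1 → 1 ≤ u →
    ((∑' n : ℕ, ArithmeticFunction.vonMangoldt n * tri lam (u - Real.log n) : ℝ) : ℂ)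
      - Complex.exp u * KK lam 1 + (M.map (fun ρ => Complex.exp (ρ * u) * KK lam ρ)).sum =
    (1 / (2 * Real.pi)) * ∫ t : ℝ, KK lam (σ₁ + t * Complex.I) * G (σ₁ + t * Complex.I) *
        Complex.exp ((σ₁ + t * Complex.I) * u)

/-- A5: duality (large sieve with the Lorentz weight) -/
def Duality : Prop := ∃ C : ℝ, ∀ (lam : ℝ), 0 < lam → lam ≤ 1/2 → ∀ (g : ℝ → ℂ), Measurable g →
    ∀ B : ℝ, 0 ≤ B → (∀ t, ‖g t‖ ≤ B / (1 + (lam * t) ^ 2) * Real.log (2 + |t|)) →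
    ∀ (R : Finset ℝ), (∀ u ∈ R, ∀ u' ∈ R, u ≠ u' → lam ≤ |u - u'|) →
    (∑ u ∈ R, ‖∫ t : ℝ, g t * Complex.exp (t * u * Complex.I)‖) ≤
      C * B * Real.log (1 / lam) / lam * Real.sqrt R.card

/-- A6: few bad cells -/
def BadCells : Prop := ∀ (σ₀ σ₁ : ℝ), 1/2 ≤ σ₀ → σ₀ < σ₁ → σ₁ < 1 →
    {ρ : ℂ | riemannZeta ρ = 0 ∧ σ₀ < ρ.re}.Finite →
    ∃ C : ℝ, ∀ k e : ℕ, 1 ≤ k → e ≤ k →
      (((Finset.range (2 ^ (k - e))).filter (fun j =>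
        ((((Finset.Ico (2 ^ k + j * 2 ^ e) (2 ^ k + (j + 1) * 2 ^ e)).filter Nat.Prime).card : ℕ) : ℝ)
          < (2 : ℝ) ^ e / (50 * k))).card : ℝ) ≤
        C * (k : ℝ) ^ 2 * (2 : ℝ) ^ (2 * σ₁ * k) / (2 : ℝ) ^ (2 * e)

end Pool.Agent.Helper10.QRH
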